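import Pool.Agent.H.MP_279640_co.A

namespace Pool.Agent.Results.MP_279640_co.Beta

open Filter Topology

/-- sizes of the bisections of `G` -/
def bis {n : ℕ} (G : SimpleGraph (Fin n)) : Set ℕ :=
  {k | ∃ A : Finset (Fin n), A.card ≤ Aᶜ.card ∧ Aᶜ.card ≤ A.card + 1 ∧
    k = {p : Fin n × Fin n | p.1 ∈ A ∧ p.2 ∉ A ∧ G.Adj p.1 p.2}.ncard}

/-- `b(m,n)`: least value of the largest bisection over graphs with `m` edges and `n` vertices -/
noncomputable def b (m n : ℕ) : ℕ :=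
  sInf {k | ∃ G : SimpleGraph (Fin n), G.edgeSet.ncard = m ∧ k = sSup (bis G)}

/-- pairs `(m,n)` with `m ≤ C(n,2)`, `m → ∞` and `n / √m → c` -/
noncomputable def F (c : ℝ) : Filter (ℕ × ℕ) :=
  comap Prod.fst atTop ⊓ comap (fun p : ℕ × ℕ => (p.2 : ℝ) / √(p.1 : ℝ)) (𝓝 c) ⊓
    𝓟 {p | p.1 ≤ p.2.choose 2}

/-- the normalised excess `(b(m,n) - m/2) / √m` -/
noncomputable def ex (p : ℕ × ℕ) : ℝ := ((b p.1 p.2 : ℝ) - p.1 / 2) / √(p.1 : ℝ)

open Pool.Agent.H.MP_5de61a_co Pool.Agent.H.MP_279640_co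

lemma cut_eq {n : ℕ} (G : SimpleGraph (Fin n)) [DecidableRel G.Adj] (A : Finset (Fin n)) :
    {p : Fin n × Fin n | p.1 ∈ A ∧ p.2 ∉ A ∧ G.Adj p.1 p.2}.ncard = cut G A := by
  rw [cut, ← Set.ncard_coe_finset]
  simp

lemma edge_eq {n : ℕ} (G : SimpleGraph (Fin n)) [DecidableRel G.Adj] :
    G.edgeSet.ncard = G.edgeFinset.card := by
  rw [← Set.ncard_coe_finset, SimpleGraph.coe_edgeFinset]

lemma bdd {n : ℕ} (G : SimpleGraph (Fin n)) : BddAbove (bis G) :=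
  ⟨Nat.card (Fin n × Fin n), by rintro k ⟨A, -, -, rfl⟩; exact Set.ncard_le_card _⟩

lemma low (D : ℕ) (hD : 0 < D) : ∃ N : ℕ, ∀ m n j : ℕ, N ≤ m → m ≤ n.choose 2 →
    D * (4 * j ^ 2) + 2 * n ^ 2 ≤ D * (2 * m) → 2 * m + 2 * j ≤ 4 * b m n := by
  classical
  obtain ⟨N, hN⟩ := main D hD
  refine ⟨N, fun m n j h1 h2 h3 => ?_⟩
  have hne : {k | ∃ G : SimpleGraph (Fin n), G.edgeSet.ncard = m ∧ k = sSup (bis G)}.Nonempty := by
    obtain ⟨s, s1, s2⟩ := Finset.exists_subset_card_eq (s := (⊤ : SimpleGraph (Fin n)).edgeFinset)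
      (n := m) (by rw [SimpleGraph.card_edgeFinset_top_eq_card_choose_two, Fintype.card_fin]; exact h2)
    refine ⟨_, SimpleGraph.fromEdgeSet (s : Set (Sym2 (Fin n))), ?_, rfl⟩
    rw [SimpleGraph.edgeSet_fromEdgeSet, ← s2, ← Set.ncard_coe_finset]
    congr 1
    refine Disjoint.sdiff_eq_left (Set.disjoint_left.2 fun e he h => ?_)
    exact (⊤ : SimpleGraph (Fin n)).not_isDiag_of_mem_edgeSet
      (SimpleGraph.mem_edgeFinset.1 (s1 he)) h
  obtain ⟨G, g1, g2⟩ := Nat.sInf_mem hne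
  rw [edge_eq] at g1
  obtain ⟨A, a1, a2, a3⟩ := hN n G j (by omega) (by rw [g1]; exact h3)
  have := le_csSup (bdd G) ⟨A, a1, a2, (cut_eq G A).symm⟩
  unfold b
  omega

lemma up (i n : ℕ) (h : 2 * i + 1 ≤ n) : i * (2 * i + 1) ≤ n.choose 2 ∧
    4 * b (i * (2 * i + 1)) n ≤ 2 * (i * (2 * i + 1)) + (2 * i + 1) := by
  classical
  obtain ⟨K, -, hK⟩ := Finset.exists_subset_card_eq (s := (Finset.univ : Finset (Fin n)))
    (n := 2 * i + 1) (by simpa using h)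
  have h1 := Cl_edges K
  rw [hK] at h1
  have h2 : (Cl K).edgeFinset.card = i * (2 * i + 1) := by nlinarith
  constructor
  · have := (Cl K).card_edgeFinset_le_card_choose_two
    rwa [Fintype.card_fin, h2] at this
  · have h3 : b (i * (2 * i + 1)) n ≤ sSup (bis (Cl K)) :=
      Nat.sInf_le ⟨Cl K, by rw [edge_eq, h2], rfl⟩
    have h4 : sSup (bis (Cl K)) ≤ (2 * (i * (2 * i + 1)) + (2 * i + 1)) / 4 := by
      refine csSup_le' ?_
      rintro k ⟨A, -, -, rfl⟩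
      have := Cl_cut K A
      rw [cut_eq]
      omega
    omega

lemma s8 : 1 / √8 = √2 / 4 := by
  have h : √(8 : ℝ) = 2 * √2 := by
    rw [show (8 : ℝ) = 2 ^ 2 * 2 by norm_num, Real.sqrt_mul (by positivity), Real.sqrt_sq (by positivity)]
  have h2 := Real.mul_self_sqrt (show (0 : ℝ) ≤ 2 by norm_num)
  have h3 : 0 < √(2 : ℝ) := by positivity
  rw [h]; field_simp; nlinarith

lemma upper (c : ℝ) (hc : √2 ≤ c) (a : ℝ) (ha : ∀ᶠ p in F c, a ≤ ex p) : a ≤ √2 / 4 := by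
  let m : ℕ → ℕ := fun i => i * (2 * i + 1)
  let r : ℕ → ℝ := fun i => √((m i : ℕ) : ℝ)
  let n : ℕ → ℕ := fun i => max (2 * i + 1) ⌈c * r i⌉₊
  have hm : Tendsto m atTop atTop :=
    tendsto_atTop_mono (fun i => by simp only [m, id]; nlinarith) tendsto_id
  have hr : Tendsto r atTop atTop :=
    Real.tendsto_sqrt_atTop.comp (tendsto_natCast_atTop_atTop.comp hm)
  have hr0 : ∀ᶠ i in atTop, 0 < r i := hr.eventually_gt_atTop 0
  have hi : Tendsto (fun i => (r i)⁻¹) atTop (𝓝 0) := tendsto_inv_atTop_zero.comp hr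
  have h2 : ∀ i : ℕ, (2 * i : ℝ) ≤ √2 * r i := by
    intro i
    simp only [r, m]
    rw [← Real.sqrt_mul (by norm_num)]
    refine Real.le_sqrt_of_sq_le ?_
    push_cast
    nlinarith [(Nat.cast_nonneg i : (0 : ℝ) ≤ i)]
  have hc0 : 0 ≤ c := le_trans (by positivity) hc
  have ht : Tendsto (fun i => (m i, n i)) atTop (F c) := by
    refine tendsto_inf.2 ⟨tendsto_inf.2 ⟨tendsto_comap_iff.2 hm, tendsto_comap_iff.2 ?_⟩,
      tendsto_principal.2 (Eventually.of_forall fun i => (up i _ (le_max_left _ _)).1)⟩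
    refine tendsto_of_tendsto_of_tendsto_of_le_of_le' (g := fun _ => c) (h := fun i => c + (r i)⁻¹)
      tendsto_const_nhds (by simpa using tendsto_const_nhds.add hi) ?_ ?_
    · filter_upwards [hr0] with i h
      change c ≤ (n i : ℝ) / r i
      rw [le_div_iff₀ h]
      exact (Nat.le_ceil _).trans (by exact_mod_cast le_max_right _ _)
    · filter_upwards [hr0] with i h
      change (n i : ℝ) / r i ≤ _
      rw [div_le_iff₀ h, add_mul, inv_mul_cancel₀ h.ne']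
      simp only [n, Nat.cast_max]
      refine max_le ?_ (Nat.ceil_lt_add_one (by positivity)).le
      push_cast
      nlinarith [h2 i, mul_le_mul_of_nonneg_right hc h.le]
  have hl : Tendsto (fun i => √2 / 4 + (r i)⁻¹ / 4) atTop (𝓝 (√2 / 4)) := by
    simpa using (tendsto_const_nhds (x := √2 / 4)).add (hi.div_const 4)
  refine ge_of_tendsto hl ?_
  filter_upwards [ht.eventually ha, hr0] with i h1 h
  refine h1.trans ?_
  change ((b (m i) (n i) : ℝ) - (m i : ℕ) / 2) / r i ≤ _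
  have h3 : (4 * b (m i) (n i) : ℝ) ≤ 2 * (m i : ℕ) + (2 * i + 1) := by
    exact_mod_cast (up i _ (le_max_left _ _)).2
  rw [div_le_iff₀ h, add_mul, div_mul_eq_mul_div ((r i)⁻¹), inv_mul_cancel₀ h.ne']
  linarith [h2 i]

lemma lowr (c a : ℝ) (h0 : 0 < a) (ha : a < √2 / 4) : ∀ᶠ p in F c, a ≤ ex p := by
  have h2 := Real.mul_self_sqrt (show (0 : ℝ) ≤ 2 by norm_num)
  have h3 : 0 < √(2 : ℝ) := by positivity
  obtain ⟨η, hη⟩ : ∃ η, η = 2 - 16 * a ^ 2 := ⟨_, rfl⟩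
  have η0 : 0 < η := by nlinarith
  have a1 : a ≤ 1 := by nlinarith
  obtain ⟨D, hD⟩ := exists_nat_gt (4 * (c + 1) ^ 2 / η)
  have D0 : 0 < D := by
    have : (0 : ℝ) < D := lt_of_le_of_lt (by positivity) hD
    exact_mod_cast this
  rw [div_lt_iff₀ η0] at hD
  obtain ⟨N, hN⟩ := low D D0
  have t1 : Tendsto (Prod.fst : ℕ × ℕ → ℕ) (F c) atTop :=
    tendsto_comap.mono_left (inf_le_left.trans inf_le_left)
  have t2 : Tendsto (fun p : ℕ × ℕ => (p.2 : ℝ) / √(p.1 : ℝ)) (F c) (𝓝 c) :=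
    tendsto_comap.mono_left (inf_le_left.trans inf_le_right)
  have t3 : ∀ᶠ p in F c, p.1 ≤ p.2.choose 2 := le_principal_iff.1 inf_le_right
  have t4 : Tendsto (fun p : ℕ × ℕ => √(p.1 : ℝ)) (F c) atTop :=
    Real.tendsto_sqrt_atTop.comp (tendsto_natCast_atTop_atTop.comp t1)
  filter_upwards [t1.eventually_ge_atTop N, t2.eventually (gt_mem_nhds (lt_add_one c)), t3,
    t4.eventually_ge_atTop 1, t4.eventually_ge_atTop (40 / η)] with ⟨m, n⟩ e1 e2 e3 e4 e5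
  simp only [ex] at *
  have r2 := Real.mul_self_sqrt (Nat.cast_nonneg m : (0 : ℝ) ≤ m)
  set r := √(m : ℝ)
  have r0 : 0 < r := by linarith
  rw [div_lt_iff₀ r0] at e2
  rw [div_le_iff₀ η0] at e5
  have j1 := Nat.le_ceil (2 * a * r)
  have j2 := (Nat.ceil_lt_add_one (show 0 ≤ 2 * a * r by positivity)).le
  set j := ⌈2 * a * r⌉₊
  have k1 : (j : ℝ) ^ 2 ≤ (2 * a * r + 1) ^ 2 := pow_le_pow_left₀ (by positivity) j2 2
  have k2 : (n : ℝ) ^ 2 ≤ ((c + 1) * r) ^ 2 := pow_le_pow_left₀ (by positivity) e2.le 2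
  have k3 : 4 * (j : ℝ) ^ 2 ≤ (2 - η / 2) * (r * r) := by
    nlinarith [mul_le_mul_of_nonneg_right e5 r0.le, mul_le_mul_of_nonneg_right a1 r0.le]
  have k4 : (D * (4 * j ^ 2) + 2 * n ^ 2 : ℝ) ≤ D * (2 * m) := by
    rw [← r2]
    nlinarith [mul_le_mul_of_nonneg_left k3 (Nat.cast_nonneg D : (0 : ℝ) ≤ D),
      mul_le_mul_of_nonneg_right hD.le (mul_pos r0 r0).le]
  have k5 : (2 * m + 2 * j : ℝ) ≤ 4 * b m n := by
    exact_mod_cast hN m n j e1 e3 (by exact_mod_cast k4)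
  rw [le_div_iff₀ r0]
  linarith

theorem result (c : ℝ) (hc : √2 ≤ c) :
    IsLUB {a : ℝ | ∀ᶠ p in F c, a ≤ ex p} (1 / √8) ∧ liminf ex (F c) = 1 / √8 := by
  have h : IsLUB {a : ℝ | ∀ᶠ p in F c, a ≤ ex p} (1 / √8) := by
    rw [s8]
    refine ⟨fun a ha => upper c hc a ha, fun u hu => le_of_not_gt fun h => ?_⟩
    obtain ⟨a, a1, a2⟩ := exists_between (max_lt h (show 0 < √2 / 4 by positivity))
    have := hu (lowr c a ((le_max_right _ _).trans_lt a1) a2)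
    exact absurd ((le_max_left _ _).trans_lt a1) (not_lt.2 this)
  refine ⟨h, ?_⟩
  rw [liminf_eq]
  have h8 : (0 : ℝ) < √2 / 8 := by positivity
  exact h.csSup_eq ⟨√2 / 8, lowr c _ h8 (by linarith)⟩

end Pool.Agent.Results.MP_279640_co.Beta
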